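import Pool.Agent.Helper51.DI.BaseDefs
import Pool.Agent.Helper81.HodgeF.Forms

/-!
# Isometries which are linear over a base

The quotients `H^*(X) / ker k^j` for a class `k` which is pulled back from a base, and the
signature argument for them.
-/

set_option autoImplicit false

namespace Pool.Agent.Hodge51

open Pool.Agent.Hodge81 Complex Module

section Quot

variable {n : ℕ} {A : Type*} [Ring A] [Algebra ℂ A] (X : HodgeRing n A)

/-- the polarised bigraded space `A / ker k^j` of dimension `n - j` -/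
noncomputable def QB {k : A} {b : ℕ} (hs : IsPullback X k b) (j : ℕ) (hj : j ≤ b) :
    HodgeForm (n - j) (A ⧸ HodgeRing.kerK k j) where
  H p q := (X.H p q).map (HodgeRing.kerK k j).mkQ
  internal := X.internalQ hs.mem j
  bounded p q h := by
    rw [eq_bot_iff]
    rintro _ ⟨a, ha, rfl⟩
    rw [Submodule.mem_bot, HodgeRing.mkQ_eq_zero]
    have h1 := X.pow_mem hs.mem ha j
    have hjn := hs.le
    rw [X.bounded _ _ (by omega)] at h1
    simpa using h1
  conj := X.conjQ hs.real j
  conj_smul z x := by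
    obtain ⟨a, rfl⟩ := Submodule.mkQ_surjective _ x
    rw [← map_smul, HodgeRing.conjQ_mk, HodgeRing.conjQ_mk, X.conj_smul, map_smul]
  conj_conj x := by
    obtain ⟨a, rfl⟩ := Submodule.mkQ_surjective _ x
    rw [HodgeRing.conjQ_mk, HodgeRing.conjQ_mk, X.conj_conj]
  conj_mem p q x hx := by
    obtain ⟨a, ha, rfl⟩ := hx
    exact ⟨X.conj a, X.conj_mem _ _ _ ha, rfl⟩
  B := X.BQ k j
  B_conj x y := by
    obtain ⟨a, rfl⟩ := Submodule.mkQ_surjective _ x
    obtain ⟨c, rfl⟩ := Submodule.mkQ_surjective _ y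
    rw [HodgeRing.conjQ_mk, HodgeRing.conjQ_mk, X.BQ_mk hs.mem, X.BQ_mk hs.mem, ← X.int_conj,
      map_mul X.conj, map_mul X.conj, map_pow X.conj, hs.real]
  B_off p q p' q' x y hx hy hne := by
    obtain ⟨a, ha, rfl⟩ := hx
    obtain ⟨c, hc, rfl⟩ := hy
    rw [X.BQ_mk hs.mem]
    refine X.int_off _ _ _ (X.pow_mem hs.mem (X.mul_mem _ _ _ _ _ _ ha hc) j) fun h => hne ?_
    have hjn := hs.le
    simp only [Prod.mk.injEq] at h ⊢
    omega
  B_comm p q p' q' x y hx hy := by
    obtain ⟨a, ha, rfl⟩ := hx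
    obtain ⟨c, hc, rfl⟩ := hy
    rw [X.BQ_mk hs.mem, X.BQ_mk hs.mem, X.comm _ _ _ _ _ _ ha hc, mul_smul_comm, map_smul,
      smul_eq_mul]
  nondeg x hx := by
    obtain ⟨a, rfl⟩ := Submodule.mkQ_surjective _ x
    rw [HodgeRing.mkQ_eq_zero]
    refine X.poincare _ fun c => ?_
    have := hx ((HodgeRing.kerK k j).mkQ c)
    rwa [X.BQ_mk hs.mem, ← mul_assoc] at this
  L := X.LQ hs.mem j
  L_mem p q x hx := by
    obtain ⟨a, ha, rfl⟩ := hx
    refine ⟨X.omega * a, ?_, rfl⟩
    have := X.mul_mem _ _ _ _ _ _ X.omega_mem ha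
    rwa [add_comm 1 p, add_comm 1 q] at this
  L_conj x := by
    obtain ⟨a, rfl⟩ := Submodule.mkQ_surjective _ x
    rw [HodgeRing.LQ_mk, HodgeRing.conjQ_mk, HodgeRing.conjQ_mk, HodgeRing.LQ_mk,
      map_mul X.conj, X.omega_real]
  L_adj x y := by
    obtain ⟨a, rfl⟩ := Submodule.mkQ_surjective _ x
    obtain ⟨c, rfl⟩ := Submodule.mkQ_surjective _ y
    rw [HodgeRing.LQ_mk, HodgeRing.LQ_mk, X.BQ_mk hs.mem, X.BQ_mk hs.mem,
      ← X.comm_of_mem X.omega_mem a, mul_assoc]
  hodgeRiemann p q x hx hpq h0 hne := by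
    obtain ⟨a, ha, rfl⟩ := hx
    rw [X.LQ_pow_mk, HodgeRing.mkQ_eq_zero] at h0
    rw [ne_eq, HodgeRing.mkQ_eq_zero] at hne
    have hjn := hs.le
    obtain ⟨r, hr, he⟩ := hs.hodgeRiemann j hj p q a ha (by omega) h0 hne
    refine ⟨r, hr, ?_⟩
    rw [X.LQ_pow_mk, HodgeRing.conjQ_mk, X.BQ_mk hs.mem]
    exact he

theorem dual_QB {k : A} {b : ℕ} (hs : IsPullback X k b) (j : ℕ) (hj : j ≤ b) (a : A) :
    (QB X hs j hj).dual ((HodgeRing.kerK k j).mkQ a) = (HodgeRing.kerK k j).mkQ (X.dual a) := by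
  refine X.induct (P := fun a => (QB X hs j hj).dual ((HodgeRing.kerK k j).mkQ a) =
      (HodgeRing.kerK k j).mkQ (X.dual a)) (fun p q a ha => ?_) (by simp)
    (fun a b ha hb => by simp only [map_add, ha, hb]) a
  have h1 : (HodgeRing.kerK k j).mkQ a ∈ (QB X hs j hj).H p q := ⟨a, ha, rfl⟩
  rw [(QB X hs j hj).dual_of_mem h1, X.dual_of_mem ha, map_smul]

theorem column_QB {k : A} {b : ℕ} (hs : IsPullback X k b) (j : ℕ) (hj : j ≤ b) (i : ℤ) :
    (QB X hs j hj).column i = (X.column i).map (HodgeRing.kerK k j).mkQ := by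
  unfold HodgeForm.column HodgeRing.column
  rw [Submodule.map_iSup]
  refine iSup_congr fun x => ?_
  rw [Submodule.map_iSup]
  rfl

theorem dual_k_pow {k : A} (hk : k ∈ X.H 1 1) (j : ℕ) (v : A) :
    X.dual (k ^ j * v) = (-1 : ℂ) ^ j • (k ^ j * X.dual v) := by
  induction j with
  | zero => simp
  | succ j ih =>
    rw [pow_succ', mul_assoc, X.dual_mul hk, ih, mul_smul_comm, pow_succ, mul_assoc,
      mul_neg_one, neg_smul]

end Quot

section Iso

variable {n : ℕ} {A B : Type*} [Ring A] [Algebra ℂ A] [Ring B] [Algebra ℂ B]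
variable {X : HodgeRing n A} {Y : HodgeRing n B} {phi : A ≃ₗ[ℂ] B}

theorem k_pow_mul {kX : A} {kY : B} (hk : ∀ v, phi (kX * v) = kY * phi v) (j : ℕ) (v : A) :
    phi (kX ^ j * v) = kY ^ j * phi v := by
  induction j with
  | zero => simp
  | succ j ih => rw [pow_succ', mul_assoc, hk, ih, pow_succ', mul_assoc]

theorem map_kerKB {kX : A} {kY : B} (hk : ∀ v, phi (kX * v) = kY * phi v) (j : ℕ) :
    (HodgeRing.kerK kX j).map phi.toLinearMap = HodgeRing.kerK kY j := by
  ext w
  constructor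
  · rintro ⟨v, hv, rfl⟩
    have hv' : kX ^ j * v = 0 := (HodgeRing.mem_kerK (n := 0)).1 hv
    rw [HodgeRing.mem_kerK (n := 0)]
    rw [LinearEquiv.coe_coe, ← k_pow_mul hk, hv', map_zero]
  · intro hw
    obtain ⟨v, rfl⟩ := phi.surjective w
    refine ⟨v, ?_, rfl⟩
    rw [HodgeRing.mem_kerK (n := 0), ← k_pow_mul hk] at hw
    refine (HodgeRing.mem_kerK (n := 0)).2 ?_
    exact (map_eq_zero_iff _ phi.injective).1 hw

/-- the induced isomorphism of the quotients -/
noncomputable def phiB {kX : A} {kY : B} (hk : ∀ v, phi (kX * v) = kY * phi v) (j : ℕ) :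
    (A ⧸ HodgeRing.kerK kX j) ≃ₗ[ℂ] (B ⧸ HodgeRing.kerK kY j) :=
  Submodule.Quotient.equiv _ _ phi (map_kerKB hk j)

theorem phiB_mk {kX : A} {kY : B} (hk : ∀ v, phi (kX * v) = kY * phi v) (j : ℕ) (a : A) :
    phiB hk j ((HodgeRing.kerK kX j).mkQ a) = (HodgeRing.kerK kY j).mkQ (phi a) := rfl

theorem isFormIsometryB (hphi : IsMukaiIsometry X Y phi) {kX : A} {kY : B}
    (hk : ∀ v, phi (kX * v) = kY * phi v) {b : ℕ} (hX : IsPullback X kX b)
    (hY : IsPullback Y kY b) (j : ℕ) (hj : j ≤ b) :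
    IsFormIsometry (QB X hX j hj) (QB Y hY j hj) (phiB hk j) where
  conj x := by
    obtain ⟨a, rfl⟩ := Submodule.mkQ_surjective _ x
    have e1 : (QB X hX j hj).conj ((HodgeRing.kerK kX j).mkQ a) =
      (HodgeRing.kerK kX j).mkQ (X.conj a) := rfl
    have e2 : (QB Y hY j hj).conj ((HodgeRing.kerK kY j).mkQ (phi a)) =
      (HodgeRing.kerK kY j).mkQ (Y.conj (phi a)) := rfl
    rw [e1, phiB_mk, phiB_mk, e2, hphi.conj]
  column i := by
    rw [column_QB, column_QB, ← hphi.column i, ← Submodule.map_comp, ← Submodule.map_comp]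
    rfl
  form x y := by
    obtain ⟨v, rfl⟩ := Submodule.mkQ_surjective _ x
    obtain ⟨w, rfl⟩ := Submodule.mkQ_surjective _ y
    rw [dual_QB, phiB_mk, phiB_mk, dual_QB]
    have e1 : (QB Y hY j hj).B ((HodgeRing.kerK kY j).mkQ (Y.dual (phi v)))
        ((HodgeRing.kerK kY j).mkQ (phi w)) =
        Y.int (kY ^ j * (Y.dual (phi v) * phi w)) := Y.BQ_mk hY.mem j _ _
    have e2 : (QB X hX j hj).B ((HodgeRing.kerK kX j).mkQ (X.dual v))
        ((HodgeRing.kerK kX j).mkQ w) =
        X.int (kX ^ j * (X.dual v * w)) := X.BQ_mk hX.mem j _ _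
    have e0 : (-1 : ℂ) ^ j * (-1) ^ j = 1 := by rw [← mul_pow]; norm_num
    have e3 : Y.int (kY ^ j * (Y.dual (phi v) * phi w)) =
        (-1) ^ j * Y.h0 (kY ^ j * phi v) (phi w) := by
      rw [HodgeRing.h0, dual_k_pow Y hY.mem, smul_mul_assoc, map_smul, smul_eq_mul,
        ← mul_assoc ((-1 : ℂ) ^ j) ((-1 : ℂ) ^ j), e0, one_mul, mul_assoc]
    have e4 : X.int (kX ^ j * (X.dual v * w)) =
        (-1) ^ j * X.h0 (kX ^ j * v) w := by
      rw [HodgeRing.h0, dual_k_pow X hX.mem, smul_mul_assoc, map_smul, smul_eq_mul,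
        ← mul_assoc ((-1 : ℂ) ^ j) ((-1 : ℂ) ^ j), e0, one_mul, mul_assoc]
    rw [e1, e2, e3, e4, ← k_pow_mul hk, hphi.h0]

end Iso

section Dims

variable {n : ℕ} {A : Type*} [Ring A] [Algebra ℂ A] [FiniteDimensional ℂ A] (X : HodgeRing n A)

/-- the Hodge numbers of the quotient -/
theorem h_QB {k : A} {b : ℕ} (hs : IsPullback X k b) {j : ℕ} (hj : j ≤ b) (p q : ℕ) :
    (QB X hs j hj).h p q = rankDim X k j p q := by
  have h1 : LinearMap.ker (HodgeRing.kerK k j).mkQ =
      LinearMap.ker (LinearMap.mulLeft ℂ (k ^ j)) := by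
    rw [Submodule.ker_mkQ]
    rfl
  -- both are the quotient of `H p q` by the same kernel
  have e1 := LinearMap.finrank_range_add_finrank_ker ((HodgeRing.kerK k j).mkQ.domRestrict
    (X.H p q))
  have e2 := LinearMap.finrank_range_add_finrank_ker ((LinearMap.mulLeft ℂ (k ^ j)).domRestrict
    (X.H p q))
  have e3 : LinearMap.ker ((HodgeRing.kerK k j).mkQ.domRestrict (X.H p q)) =
      LinearMap.ker ((LinearMap.mulLeft ℂ (k ^ j)).domRestrict (X.H p q)) := by
    rw [LinearMap.ker_domRestrict, LinearMap.ker_domRestrict, h1]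
  rw [e3] at e1
  have e4 : LinearMap.range ((HodgeRing.kerK k j).mkQ.domRestrict (X.H p q)) =
      (QB X hs j hj).H p q := by
    rw [LinearMap.range_domRestrict]
    rfl
  have e5 : LinearMap.range ((LinearMap.mulLeft ℂ (k ^ j)).domRestrict (X.H p q)) =
      (X.H p q).map (LinearMap.mulLeft ℂ (k ^ j)) := LinearMap.range_domRestrict _ _
  rw [e4] at e1
  rw [e5] at e2
  unfold HodgeForm.h rankDim
  omega

theorem rank_add_kernel (k : A) (j p q : ℕ) :
    rankDim X k j p q + kernelDim X k j p q = X.h p q := by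
  have e2 := LinearMap.finrank_range_add_finrank_ker ((LinearMap.mulLeft ℂ (k ^ j)).domRestrict
    (X.H p q))
  rw [LinearMap.range_domRestrict] at e2
  have e1 : finrank ℂ (LinearMap.ker ((LinearMap.mulLeft ℂ (k ^ j)).domRestrict (X.H p q))) =
      kernelDim X k j p q := by
    have e3 : (LinearMap.ker ((LinearMap.mulLeft ℂ (k ^ j)).domRestrict (X.H p q))).map
        (X.H p q).subtype = X.H p q ⊓ LinearMap.ker (LinearMap.mulLeft ℂ (k ^ j)) := by
      rw [LinearMap.ker_domRestrict, Submodule.map_comap_subtype]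
    rw [kernelDim, ← e3]
    exact (Submodule.finrank_map_subtype_eq (X.H p q) _).symm
  rw [e1] at e2
  exact e2

omit [FiniteDimensional ℂ A] in
theorem kernelDim_of_pow {k : A} {j : ℕ} (h : k ^ j = 0) (p q : ℕ) :
    kernelDim X k j p q = X.h p q := by
  rw [kernelDim, h]
  have : LinearMap.ker (LinearMap.mulLeft ℂ (0 : A)) = ⊤ := by
    ext x
    simp
  rw [this, inf_top_eq]
  rfl

theorem kernelDim_le {k : A} (hk : X.conj k = k) (j p q : ℕ) :
    kernelDim X k j p q ≤ kernelDim X k j q p := by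
  have hinj : Function.Injective X.conjR := fun a b hab => by
    rw [← X.conj_conj a, ← X.conj_conj b]
    exact congrArg X.conj hab
  have h1 : ((X.H p q ⊓ LinearMap.ker (LinearMap.mulLeft ℂ (k ^ j))).restrictScalars ℝ).map
      X.conjR ≤ (X.H q p ⊓ LinearMap.ker (LinearMap.mulLeft ℂ (k ^ j))).restrictScalars ℝ := by
    rintro _ ⟨a, ha, rfl⟩
    refine ⟨X.conj_mem _ _ _ ha.1, ?_⟩
    have h0 : k ^ j * a = 0 := ha.2
    have h2 := congrArg X.conj h0
    rw [map_mul X.conj, map_pow X.conj, hk, map_zero] at h2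
    exact h2
  have : FiniteDimensional ℝ A := FiniteDimensional.complexToReal A
  have h2 := Submodule.finrank_mono h1
  rw [← (Submodule.equivMapOfInjective X.conjR hinj _).finrank_eq, finrank_restrict,
    finrank_restrict] at h2
  unfold kernelDim
  omega

theorem kernelDim_conj {k : A} (hk : X.conj k = k) (j p q : ℕ) :
    kernelDim X k j p q = kernelDim X k j q p :=
  le_antisymm (kernelDim_le X hk j p q) (kernelDim_le X hk j q p)

end Dims

variable {n : ℕ} {A B : Type*} [Ring A] [Algebra ℂ A] [FiniteDimensional ℂ A]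
  [Ring B] [Algebra ℂ B] [FiniteDimensional ℂ B]

/-- the signature theorem for the quotients -/
theorem rank_sum {X : HodgeRing n A} {Y : HodgeRing n B} {phi : A ≃ₗ[ℂ] B}
    (hphi : IsMukaiIsometry X Y phi) {kX : A} {kY : B}
    (hk : ∀ v, phi (kX * v) = kY * phi v) {b : ℕ} (hX : IsPullback X kX b)
    (hY : IsPullback Y kY b) {j p q : ℕ} (hj : j ≤ b) (hpq : p + q + j = n) :
    ∑ l ∈ Finset.range (min p q + 1),
        (if l % 2 = 1 then rankDim X kX j (p - l) (q - l) else 0) =
      ∑ l ∈ Finset.range (min p q + 1),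
        (if l % 2 = 1 then rankDim Y kY j (p - l) (q - l) else 0) := by
  have h1 := (IsFormIsometry.main_aux (isFormIsometryB hphi hk hX hY j hj)
    (p := p) (q := q) (by omega)).1
  simp only [h_QB] at h1
  exact h1

/-- degree at most `n - 2`, column of index `a ≥ 0` -/
theorem base_low {X : HodgeRing n A} {Y : HodgeRing n B} {phi : A ≃ₗ[ℂ] B}
    (hphi : IsMukaiIsometry X Y phi) {kX : A} {kY : B}
    (hk : ∀ v, phi (kX * v) = kY * phi v) {b : ℕ} (hX : IsPullback X kX b)
    (hY : IsPullback Y kY b) {a : ℕ}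
    (hker : ∀ r j, a + 2 * r + j + 2 ≤ n → 4 ∣ n - 2 - (a + 2 * r + j) →
      kernelDim X kX j (a + r) r = kernelDim Y kY j (a + r) r)
    (r : ℕ) (hr : a + 2 * r + 2 ≤ n) :
    X.h (a + r) r = Y.h (a + r) r := by
  induction r using Nat.strong_induction_on with
  | _ r ih =>
    obtain ⟨J, hJ⟩ : ∃ J, a + 2 * r + 2 + J = n := ⟨n - (a + 2 * r + 2), by omega⟩
    rcases Nat.lt_or_ge b J with hjb | hjb
    · obtain ⟨m, rfl⟩ := Nat.exists_eq_add_of_lt hjb
      have hx : kX ^ (b + m + 1) = 0 := by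
        rw [show b + m + 1 = (b + 1) + m by ring, pow_add, hX.pow_succ, zero_mul]
      have hy : kY ^ (b + m + 1) = 0 := by
        rw [show b + m + 1 = (b + 1) + m by ring, pow_add, hY.pow_succ, zero_mul]
      rw [← kernelDim_of_pow X hx, ← kernelDim_of_pow Y hy]
      exact hker r _ (by omega) (by
        rw [show n - 2 - (a + 2 * r + (b + m + 1)) = 0 by omega]
        exact dvd_zero 4)
    have h1 := rank_sum hphi hk hX hY (p := a + (r + 1)) (q := r + 1) hjb (by omega)
    rw [show min (a + (r + 1)) (r + 1) = r + 1 by omega] at h1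
    have h1r : 1 ∈ Finset.range (r + 1 + 1) := by simp
    rw [← Finset.add_sum_erase _ _ h1r, ← Finset.add_sum_erase _ _ h1r] at h1
    have h2 : ∑ l ∈ (Finset.range (r + 1 + 1)).erase 1, (if l % 2 = 1 then
        rankDim X kX J (a + (r + 1) - l) (r + 1 - l) else 0) =
        ∑ l ∈ (Finset.range (r + 1 + 1)).erase 1, (if l % 2 = 1 then
        rankDim Y kY J (a + (r + 1) - l) (r + 1 - l) else 0) := by
      refine Finset.sum_congr rfl fun l hl => ?_
      simp only [Finset.mem_erase, Finset.mem_range] at hl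
      split_ifs with hodd
      · have e1 := ih (r + 1 - l) (by omega) (by omega)
        have e2 := rank_add_kernel X kX J (a + (r + 1 - l)) (r + 1 - l)
        have e3 := rank_add_kernel Y kY J (a + (r + 1 - l)) (r + 1 - l)
        have e4 := hker (r + 1 - l) J (by omega) (by omega)
        rw [show a + (r + 1) - l = a + (r + 1 - l) by omega]
        omega
      · rfl
    rw [h2] at h1
    have h3 := Nat.add_right_cancel h1
    rw [if_pos (by norm_num), if_pos (by norm_num), show a + (r + 1) - 1 = a + r by omega,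
      show r + 1 - 1 = r by omega] at h3
    have e2 := rank_add_kernel X kX J (a + r) r
    have e3 := rank_add_kernel Y kY J (a + r) r
    have e4 := hker r J (by omega) (by
      rw [show n - 2 - (a + 2 * r + J) = 0 by omega]
      exact dvd_zero 4)
    omega

/-- a column is determined by its part in degree at most `n - 2` -/
theorem column_of_low {X : HodgeRing n A} {Y : HodgeRing n B} {phi : A ≃ₗ[ℂ] B}
    (hphi : IsMukaiIsometry X Y phi) {a : ℕ}
    (hlow : ∀ r, a + 2 * r + 2 ≤ n → X.h (a + r) r = Y.h (a + r) r)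
    (r : ℕ) : X.h (a + r) r = Y.h (a + r) r := by
  rcases Nat.lt_or_ge n (a + r) with hbig | hle
  · unfold HodgeRing.h
    rw [X.bounded _ _ (Or.inl hbig), Y.bounded _ _ (Or.inl hbig), finrank_bot, finrank_bot]
  -- symmetry
  have hsx : ∀ r, a + r ≤ n → X.h (a + (n - a - r)) (n - a - r) = X.h (a + r) r := by
    intro r hr
    rw [← X.h_serre (p := a + r) (q := r) (by omega) (by omega), X.h_conj]
    congr 1 <;> omega
  have hsy : ∀ r, a + r ≤ n → Y.h (a + (n - a - r)) (n - a - r) = Y.h (a + r) r := by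
    intro r hr
    rw [← Y.h_serre (p := a + r) (q := r) (by omega) (by omega), Y.h_conj]
    congr 1 <;> omega
  have hsum := column_sum hphi (a := a) (b := 0) (m := n - a) (by omega) (Or.inr rfl)
  simp only [zero_add] at hsum
  -- reduce to the lower half
  wlog hhalf : 2 * r ≤ n - a generalizing r with H
  · rw [← hsx r hle, ← hsy r hle]
    exact H (n - a - r) (by omega) (by omega)
  rcases Nat.lt_or_ge n (a + 2 * r + 2) with h2 | h2
  swap
  · exact hlow r h2
  -- now `n - a = 2 r` or `n - a = 2 r + 1`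
  have key : ∀ j ∈ Finset.range (n - a + 1), j ≠ r → j ≠ n - a - r →
      X.h (a + j) j = Y.h (a + j) j := by
    intro j hj h1 h3
    simp only [Finset.mem_range] at hj
    rcases Nat.lt_or_ge j r with h4 | h4
    · exact hlow j (by omega)
    · rw [← hsx j (by omega), ← hsy j (by omega)]
      exact hlow (n - a - j) (by omega)
  have hr : r ∈ Finset.range (n - a + 1) := by simp only [Finset.mem_range]; omega
  rw [← Finset.add_sum_erase _ _ hr, ← Finset.add_sum_erase _ _ hr] at hsum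
  rcases Nat.lt_or_ge (n - a) (2 * r + 1) with h3 | h3
  · have h4 : ∑ j ∈ (Finset.range (n - a + 1)).erase r, X.h (a + j) j =
        ∑ j ∈ (Finset.range (n - a + 1)).erase r, Y.h (a + j) j := by
      refine Finset.sum_congr rfl fun j hj => ?_
      rw [Finset.mem_erase] at hj
      exact key j hj.2 hj.1 (by omega)
    rw [h4] at hsum
    exact Nat.add_right_cancel hsum
  · have hr' : n - a - r ∈ (Finset.range (n - a + 1)).erase r := by
      simp only [Finset.mem_erase, Finset.mem_range]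
      omega
    rw [← Finset.add_sum_erase _ _ hr', ← Finset.add_sum_erase _ _ hr', hsx r hle, hsy r hle]
      at hsum
    have h4 : ∑ j ∈ ((Finset.range (n - a + 1)).erase r).erase (n - a - r), X.h (a + j) j =
        ∑ j ∈ ((Finset.range (n - a + 1)).erase r).erase (n - a - r), Y.h (a + j) j := by
      refine Finset.sum_congr rfl fun j hj => ?_
      rw [Finset.mem_erase, Finset.mem_erase] at hj
      exact key j hj.2.2 hj.2.1 hj.1
    rw [h4] at hsum
    omega

/-- the final form -/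
theorem base_main (X : HodgeRing n A) (Y : HodgeRing n B) (phi : A ≃ₗ[ℂ] B)
    (hphi : IsMukaiIsometry X Y phi) (kX : A) (kY : B)
    (hk : (∀ v, phi (kX * v) = kY * phi v) ∨
      ∃ s : ℝ, kX = (s : ℂ) • X.c1 ∧ kY = (s : ℂ) • Y.c1) (b : ℕ)
    (hX : IsPullback X kX b) (hY : IsPullback Y kY b) :
    (∀ p q j : ℕ, j ≤ b → p + q + j = n →
      ∑ l ∈ Finset.range (min p q + 1),
          (if l % 2 = 1 then rankDim X kX j (p - l) (q - l) else 0) =
        ∑ l ∈ Finset.range (min p q + 1),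
          (if l % 2 = 1 then rankDim Y kY j (p - l) (q - l) else 0)) ∧
    ∀ i : ℤ, (∀ p q j : ℕ, (p : ℤ) - q = i → p + q + j + 2 ≤ n → 4 ∣ n - 2 - (p + q + j) →
      kernelDim X kX j p q = kernelDim Y kY j p q) →
      ∀ p q : ℕ, (p : ℤ) - q = i → X.h p q = Y.h p q := by
  have hk' : ∀ v, phi (kX * v) = kY * phi v := by
    rcases hk with hk | ⟨s, rfl, rfl⟩
    · exact hk
    · intro v
      have := hphi.sc1_pow_mul s 1 v
      simpa using this
  refine ⟨fun p q j hj hpq => rank_sum hphi hk' hX hY hj hpq, fun i hker p q hpq => ?_⟩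
  rcases le_total q p with hle | hle
  · obtain ⟨a, rfl⟩ := Nat.exists_eq_add_of_le' hle
    refine column_of_low hphi (base_low hphi hk' hX hY fun r j h1 h2 => ?_) q
    refine hker _ _ j ?_ (by omega) ?_
    · push_cast at hpq ⊢
      omega
    · rwa [show a + r + r + j = a + 2 * r + j by ring]
  · obtain ⟨a, rfl⟩ := Nat.exists_eq_add_of_le' hle
    rw [X.h_conj, Y.h_conj]
    refine column_of_low hphi (base_low hphi hk' hX hY fun r j h1 h2 => ?_) p
    rw [kernelDim_conj X hX.real, kernelDim_conj Y hY.real]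
    refine hker _ _ j ?_ (by omega) ?_
    · push_cast at hpq ⊢
      omega
    · rwa [show r + (a + r) + j = a + 2 * r + j by ring]

end Pool.Agent.Hodge51
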