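import Pool.Agent.Helper81.Hodge.Defs

/-!
# Classes pulled back from a base
-/

set_option autoImplicit false

namespace Pool.Agent.Hodge51

open Pool.Agent.Hodge81 Complex

/-- `k` behaves like the pullback of an ample class under a morphism `f : X → B` onto a projective
variety `B` of dimension `b`. For `j ≤ b` the preimage `Z` of the intersection of `j` general
hyperplane sections of `B` is smooth of dimension `n - j`, and `H^*(X) / ker k^j` is the image of
`H^*(X)` in `H^*(Z)`, which satisfies the Hodge-Riemann relations in dimension `n - j`. -/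
structure IsPullback {n : ℕ} {A : Type*} [Ring A] [Algebra ℂ A] (X : HodgeRing n A) (k : A)
    (b : ℕ) : Prop where
  mem : k ∈ X.H 1 1
  real : X.conj k = k
  le : b ≤ n
  pow_succ : k ^ (b + 1) = 0
  hodgeRiemann : ∀ j ≤ b, ∀ p q a, a ∈ X.H p q → p + q + j ≤ n →
    k ^ j * (X.omega ^ (n - j - (p + q) + 1) * a) = 0 → k ^ j * a ≠ 0 →
    ∃ r : ℝ, 0 < r ∧ I ^ p * (-I) ^ q * (-1) ^ ((p + q) * (p + q - 1) / 2) *
      X.int (k ^ j * (X.omega ^ (n - j - (p + q)) * a * X.conj a)) = (r : ℂ)

/-- the dimension of the space of all `a` in `H^{p,q}` with `k^j a = 0` -/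
noncomputable def kernelDim {n : ℕ} {A : Type*} [Ring A] [Algebra ℂ A] (X : HodgeRing n A) (k : A)
    (j p q : ℕ) : ℕ :=
  Module.finrank ℂ (X.H p q ⊓ LinearMap.ker (LinearMap.mulLeft ℂ (k ^ j)) : Submodule ℂ A)

/-- the rank of `k^j` on `H^{p,q}` -/
noncomputable def rankDim {n : ℕ} {A : Type*} [Ring A] [Algebra ℂ A] (X : HodgeRing n A) (k : A)
    (j p q : ℕ) : ℕ :=
  Module.finrank ℂ ((X.H p q).map (LinearMap.mulLeft ℂ (k ^ j)) : Submodule ℂ A)

end Pool.Agent.Hodge51
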