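import Pool.Agent.Helper81.Hodge.Defs

/-!
# Chern classes of a fivefold, and its pluricanonical divisors
-/

set_option autoImplicit false

namespace Pool.Agent.Hodge51

open Pool.Agent.Hodge81

/-- the Todd polynomials `td_0, ..., td_5` in Chern classes `c 1, ..., c 5` -/
noncomputable def todd {A : Type*} [Ring A] [Algebra ℂ A] (c : ℕ → A) : ℕ → A
  | 0 => 1
  | 1 => (1 / 2 : ℂ) • c 1
  | 2 => (1 / 12 : ℂ) • (c 1 ^ 2 + c 2)
  | 3 => (1 / 24 : ℂ) • (c 1 * c 2)
  | 4 => (1 / 720 : ℂ) • (-c 1 ^ 4 + 4 * c 1 ^ 2 * c 2 + 3 * c 2 ^ 2 + c 1 * c 3 - c 4)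
  | 5 => (1 / 1440 : ℂ) • (-c 1 ^ 3 * c 2 + 3 * c 1 * c 2 ^ 2 + c 1 ^ 2 * c 3 - c 1 * c 4)
  | _ => 0

/-- `∫ exp (-t c_1) td`, the value which the Riemann-Roch theorem gives for the Euler
characteristic of the power `ω^t` of the canonical bundle of a fivefold -/
noncomputable def chiOmega {A : Type*} [Ring A] [Algebra ℂ A] (X : HodgeRing 5 A) (c : ℕ → A)
    (t : ℂ) : ℂ :=
  ∑ j ∈ Finset.range 6, (-t) ^ j / (j.factorial : ℂ) * X.int (c 1 ^ j * todd c (5 - j))

/-- `∫ D c(X) / (1 + D)` for the class `D = -m c_1`: the value which adjunction gives for the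
topological Euler characteristic of a smooth divisor in `|m K_X|`, for a fivefold `X` -/
noncomputable def eulerDivisor {A : Type*} [Ring A] [Algebra ℂ A] (X : HodgeRing 5 A)
    (c : ℕ → A) (m : ℤ) : ℂ :=
  ∑ j ∈ Finset.range 5, (-1) ^ j * X.int ((-(m : ℂ) • c 1) ^ (j + 1) * c (4 - j))

/-- The Chern classes of a fivefold: classes `c k` of type `(k, k)` with `c 0 = 1`, `c 1` the
given first Chern class, and the three numerical identities which follow from the theorem of
Hirzebruch-Riemann-Roch: for the structure sheaf, the Gauss-Bonnet formula, and the identity of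
Libgober and Wood. -/
structure ChernClasses {A : Type*} [Ring A] [Algebra ℂ A] (X : HodgeRing 5 A) where
  c : ℕ → A
  c_mem : ∀ k, c k ∈ X.H k k
  c_real : ∀ k, X.conj (c k) = c k
  c_zero : c 0 = 1
  c_one : c 1 = X.c1
  riemannRoch : ∑ q ∈ Finset.range 6, (-1) ^ q * (X.h 0 q : ℂ) = chiOmega X c 0
  gaussBonnet : ∑ p ∈ Finset.range 6, ∑ q ∈ Finset.range 6, (-1) ^ (p + q) * (X.h p q : ℂ) =
    X.int (c 5)
  libgoberWood : ∑ p ∈ Finset.range 6, ∑ q ∈ Finset.range 6,
    (-1) ^ (p + q) * ((p : ℂ) - 5 / 2) ^ 2 * (X.h p q : ℂ) =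
      5 / 12 * X.int (c 5) + 1 / 6 * X.int (c 1 * c 4)

/-- a connected fourfold -/
structure Fourfold where
  A : Type
  [ring : Ring A]
  [algebra : Algebra ℂ A]
  [finite : FiniteDimensional ℂ A]
  hodge : HodgeRing 4 A

attribute [instance] Fourfold.ring Fourfold.algebra Fourfold.finite

/-- The disjoint union of the fourfolds `D i` has the arithmetic genus `χ(O_D) = χ(O_X) -
χ(ω_X^{-m})` and the topological Euler characteristic of a smooth divisor in `|m K_X|`. -/
structure HasInvariantsOfDivisor {A : Type*} [Ring A] [Algebra ℂ A] {X : HodgeRing 5 A}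
    (cX : ChernClasses X) (m : ℤ) {k : ℕ} (D : Fin k → Fourfold) : Prop where
  arithmetic : ∑ i, ∑ q ∈ Finset.range 5, (-1) ^ q * ((D i).hodge.h 0 q : ℂ) =
    chiOmega X cX.c 0 - chiOmega X cX.c (-m)
  euler : ∑ i, ∑ p ∈ Finset.range 5, ∑ q ∈ Finset.range 5,
    (-1) ^ (p + q) * ((D i).hodge.h p q : ℂ) = eulerDivisor X cX.c m

/-- What corresponding smooth divisors in `|m K_X|` and `|m K_Y|` give: their (finitely many)
connected components `D i`, `D' i` are fourfolds, related in pairs by isometries of the Mukai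
pairing and with the same `h^{1,0}`. -/
def DivisorsCorrespond {A B : Type*} [Ring A] [Algebra ℂ A] [Ring B] [Algebra ℂ B]
    {X : HodgeRing 5 A} {Y : HodgeRing 5 B} (cX : ChernClasses X) (cY : ChernClasses Y)
    (m : ℤ) : Prop :=
  ∃ (k : ℕ) (D D' : Fin k → Fourfold),
    HasInvariantsOfDivisor cX m D ∧ HasInvariantsOfDivisor cY m D' ∧
      ∀ i, (D i).hodge.h 1 0 = (D' i).hodge.h 1 0 ∧
        ∃ psi : (D i).A ≃ₗ[ℂ] (D' i).A, IsMukaiIsometry (D i).hodge (D' i).hodge psi

end Pool.Agent.Hodge51
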