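import Pool.Agent.Helper51.DI.ChernDefs
import Pool.Agent.Helper81.Hodge.Main

/-!
# Comparison of two fivefolds
-/

set_option autoImplicit false

namespace Pool.Agent.Hodge51

open Pool.Agent.Hodge81 Complex Module

section Numbers

variable {A : Type*} [Ring A] [Algebra ℂ A] (X : HodgeRing 5 A) (c : ℕ → A)

/-- `χ(ω^t)` as a polynomial in `t` -/
noncomputable def chiPoly : Polynomial ℂ :=
  ∑ j ∈ Finset.range 6, Polynomial.C (X.int (c 1 ^ j * todd c (5 - j)) / (j.factorial : ℂ)) *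
    (-Polynomial.X) ^ j

theorem chiPoly_eval (t : ℂ) : (chiPoly X c).eval t = chiOmega X c t := by
  simp only [chiPoly, chiOmega, Polynomial.eval_finsetSum, Polynomial.eval_mul,
    Polynomial.eval_C, Polynomial.eval_pow, Polynomial.eval_neg, Polynomial.eval_X]
  refine Finset.sum_congr rfl fun j _ => ?_
  ring

/-- the Euler characteristic of the divisors as a polynomial -/
noncomputable def eulerPoly : Polynomial ℂ :=
  ∑ j ∈ Finset.range 5, Polynomial.C ((-1) ^ j * X.int (c 1 ^ (j + 1) * c (4 - j))) *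
    (-Polynomial.X) ^ (j + 1)

theorem eulerPoly_eval (m : ℤ) : (eulerPoly X c).eval (m : ℂ) = eulerDivisor X c m := by
  simp only [eulerPoly, eulerDivisor, Polynomial.eval_finsetSum, Polynomial.eval_mul,
    Polynomial.eval_C, Polynomial.eval_pow, Polynomial.eval_neg, Polynomial.eval_X]
  refine Finset.sum_congr rfl fun j _ => ?_
  rw [smul_pow, smul_mul_assoc, map_smul, smul_eq_mul]
  ring

theorem eulerPoly_coeff_one : (eulerPoly X c).coeff 1 = -X.int (c 1 * c 4) := by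
  have h : eulerPoly X c = Polynomial.C (-X.int (c 1 * c 4)) * Polynomial.X +
      Polynomial.X ^ 2 * (∑ j ∈ Finset.range 4,
        Polynomial.C ((-1) ^ (j + 1) * X.int (c 1 ^ (j + 2) * c (3 - j))) *
        (-Polynomial.X) ^ j) := by
    rw [eulerPoly, Finset.sum_range_succ', Finset.mul_sum, add_comm]
    congr 1
    · simp
    · refine Finset.sum_congr rfl fun j _ => ?_
      rw [show 4 - (j + 1) = 3 - j by omega, show j + 1 + 1 = j + 2 by ring,
        pow_add (-Polynomial.X : Polynomial ℂ) j 2, neg_sq]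
      ring
  rw [h, Polynomial.coeff_add, Polynomial.coeff_C_mul_X, Polynomial.coeff_X_pow_mul']
  simp

/-- Serre duality `χ(ω^{1-t}) = -χ(ω^t)` at `t = 1/2` -/
theorem chiOmega_half : chiOmega X c (1 / 2) = 0 := by
  have e1 : c 1 ^ 1 * todd c 4 = (1 / 720 : ℂ) • (-(c 1 ^ 5) + (4 : ℂ) • (c 1 ^ 3 * c 2) +
      (3 : ℂ) • (c 1 * c 2 ^ 2) + c 1 ^ 2 * c 3 - c 1 * c 4) := by
    rw [todd, mul_smul_comm, show (4 : ℂ) • (c 1 ^ 3 * c 2) = 4 * (c 1 ^ 3 * c 2) by
      rw [Algebra.smul_def, map_ofNat], show (3 : ℂ) • (c 1 * c 2 ^ 2) = 3 * (c 1 * c 2 ^ 2) by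
      rw [Algebra.smul_def, map_ofNat]]
    congr 1
    noncomm_ring
  have e0 : c 1 ^ 0 * todd c 5 = (1 / 1440 : ℂ) • (-(c 1 ^ 3 * c 2) +
      (3 : ℂ) • (c 1 * c 2 ^ 2) + c 1 ^ 2 * c 3 - c 1 * c 4) := by
    rw [todd, show (3 : ℂ) • (c 1 * c 2 ^ 2) = 3 * (c 1 * c 2 ^ 2) by
      rw [Algebra.smul_def, map_ofNat], pow_zero, one_mul]
    congr 1
    noncomm_ring
  have e2 : c 1 ^ 2 * todd c 3 = (1 / 24 : ℂ) • (c 1 ^ 3 * c 2) := by
    rw [todd, mul_smul_comm]
    congr 1
    noncomm_ring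
  have e3 : c 1 ^ 3 * todd c 2 = (1 / 12 : ℂ) • (c 1 ^ 5 + c 1 ^ 3 * c 2) := by
    rw [todd, mul_smul_comm]
    congr 1
    noncomm_ring
  have e4 : c 1 ^ 4 * todd c 1 = (1 / 2 : ℂ) • (c 1 ^ 5) := by
    rw [todd, mul_smul_comm, ← pow_succ]
  have e5 : c 1 ^ 5 * todd c 0 = c 1 ^ 5 := by
    rw [todd, mul_one]
  simp only [chiOmega, Finset.sum_range_succ, Finset.sum_range_zero]
  rw [show 5 - 0 = 5 from rfl, show 5 - 1 = 4 from rfl, show 5 - 2 = 3 from rfl,
    show 5 - 3 = 2 from rfl, show 5 - 4 = 1 from rfl, show 5 - 5 = 0 from rfl,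
    e0, e1, e2, e3, e4, e5]
  simp only [map_add, map_sub, map_neg, map_smul, smul_eq_mul, Nat.factorial]
  push_cast
  ring

end Numbers

theorem poly_eq_of_infinite (p q : Polynomial ℂ)
    (h : ∀ M : ℕ, ∃ m : ℤ, M < m.natAbs ∧ p.eval (m : ℂ) = q.eval (m : ℂ)) : p = q := by
  rw [← sub_eq_zero]
  apply Polynomial.eq_zero_of_infinite_isRoot
  have hinf : Set.Infinite {m : ℤ | p.eval (m : ℂ) = q.eval (m : ℂ)} := by
    intro hfin
    obtain ⟨M, hM⟩ := (hfin.image Int.natAbs).bddAbove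
    obtain ⟨m, hm, he⟩ := h M
    have := hM ⟨m, he, rfl⟩
    omega
  have hinj : Function.Injective (fun m : ℤ => (m : ℂ)) := Int.cast_injective
  refine (hinf.image hinj.injOn).mono ?_
  rintro _ ⟨m, hm, rfl⟩
  simp only [Set.mem_ofPred_eq, Polynomial.IsRoot.def, Polynomial.eval_sub] at hm ⊢
  rw [hm, sub_self]

section Compare

variable {A B : Type*} [Ring A] [Algebra ℂ A] [FiniteDimensional ℂ A]
  [Ring B] [Algebra ℂ B] [FiniteDimensional ℂ B]

omit [FiniteDimensional ℂ A] [FiniteDimensional ℂ B] in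
theorem divisors_numbers {X : HodgeRing 5 A} {Y : HodgeRing 5 B} {cX : ChernClasses X}
    {cY : ChernClasses Y} {m : ℤ} (h : DivisorsCorrespond cX cY m) :
    chiOmega X cX.c 0 - chiOmega X cX.c (-m) = chiOmega Y cY.c 0 - chiOmega Y cY.c (-m) ∧
      eulerDivisor X cX.c m = eulerDivisor Y cY.c m := by
  obtain ⟨k, D, D', hD, hD', hc⟩ := h
  have key : ∀ i p q, (D i).hodge.h p q = (D' i).hodge.h p q := by
    intro i p q
    obtain ⟨h10, psi, hpsi⟩ := hc i
    exact fourfold hpsi h10 p q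
  rw [← hD.arithmetic, ← hD'.arithmetic, ← hD.euler, ← hD'.euler]
  simp only [key]
  exact ⟨trivial, trivial⟩

omit [FiniteDimensional ℂ A] [FiniteDimensional ℂ B] in
/-- the arithmetic genus and `∫ c_1 c_4` agree -/
theorem chern_numbers {X : HodgeRing 5 A} {Y : HodgeRing 5 B} {cX : ChernClasses X}
    {cY : ChernClasses Y}
    (h : ∀ M : ℕ, ∃ m : ℤ, M < m.natAbs ∧ DivisorsCorrespond cX cY m) :
    chiOmega X cX.c 0 = chiOmega Y cY.c 0 ∧ X.int (cX.c 1 * cX.c 4) = Y.int (cY.c 1 * cY.c 4) := by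
  constructor
  · have h1 := poly_eq_of_infinite
      (Polynomial.C (chiOmega X cX.c 0) - (chiPoly X cX.c).comp (-Polynomial.X))
      (Polynomial.C (chiOmega Y cY.c 0) - (chiPoly Y cY.c).comp (-Polynomial.X))
      (fun M => by
        obtain ⟨m, hm, hd⟩ := h M
        refine ⟨m, hm, ?_⟩
        simp only [Polynomial.eval_sub, Polynomial.eval_C, Polynomial.eval_comp,
          Polynomial.eval_neg, Polynomial.eval_X, chiPoly_eval]
        exact (divisors_numbers hd).1)
    have h2 := congrArg (fun p => Polynomial.eval (-(1 / 2) : ℂ) p) h1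
    simp only [Polynomial.eval_sub, Polynomial.eval_C, Polynomial.eval_comp,
      Polynomial.eval_neg, Polynomial.eval_X, chiPoly_eval, neg_neg, chiOmega_half] at h2
    simpa using h2
  · have h1 := poly_eq_of_infinite (eulerPoly X cX.c) (eulerPoly Y cY.c) (fun M => by
      obtain ⟨m, hm, hd⟩ := h M
      refine ⟨m, hm, ?_⟩
      rw [eulerPoly_eval, eulerPoly_eval]
      exact (divisors_numbers hd).2)
    have h2 := congrArg (fun p => Polynomial.coeff p 1) h1
    simp only [eulerPoly_coeff_one] at h2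
    exact neg_injective h2

end Compare

end Pool.Agent.Hodge51
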