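import Pool.Agent.Helper51.DI.Fivefold
import Pool.Agent.Helper81.HodgeF.Forms

/-!
# All Hodge numbers of fivefolds
-/

set_option autoImplicit false

namespace Pool.Agent.Hodge51

open Pool.Agent.Hodge81 Complex Module

variable {A B : Type*} [Ring A] [Algebra ℂ A] [FiniteDimensional ℂ A]
  [Ring B] [Algebra ℂ B] [FiniteDimensional ℂ B]

omit [FiniteDimensional ℂ A] [FiniteDimensional ℂ B] in
/-- if `c_1` vanishes on `X` then it vanishes on `Y` -/
theorem c1_eq_zero {n : ℕ} {X : HodgeRing n A} {Y : HodgeRing n B} {phi : A ≃ₗ[ℂ] B}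
    (hphi : IsMukaiIsometry X Y phi) (h : X.c1 = 0) : Y.c1 = 0 := by
  have h1 := hphi.c1_mul (phi.symm 1)
  rw [h, zero_mul, map_zero, LinearEquiv.apply_symm_apply, mul_one] at h1
  exact h1.symm

omit [FiniteDimensional ℂ A] in
theorem chiOmega_zero_of_c1 {X : HodgeRing 5 A} (cX : ChernClasses X) (h : X.c1 = 0) :
    chiOmega X cX.c 0 = 0 := by
  have h1 : chiOmega X cX.c 0 = chiOmega X cX.c (1 / 2) := by
    unfold chiOmega
    refine Finset.sum_congr rfl fun j _ => ?_
    rcases Nat.eq_zero_or_pos j with hj | hj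
    · subst hj
      simp
    · rw [cX.c_one, h, zero_pow hj.ne', zero_mul, map_zero, mul_zero, mul_zero]
  rw [h1, chiOmega_half]

/-- equality of the arithmetic genus and of `∫ c_1 c_4` is enough -/
theorem fivefold_of_chern {X : HodgeRing 5 A} {Y : HodgeRing 5 B} (cX : ChernClasses X)
    (cY : ChernClasses Y) {phi : A ≃ₗ[ℂ] B} (hphi : IsMukaiIsometry X Y phi)
    (h10 : X.h 1 0 = Y.h 1 0) (hchi : chiOmega X cX.c 0 = chiOmega Y cY.c 0)
    (h14 : X.int (cX.c 1 * cX.c 4) = Y.int (cY.c 1 * cY.c 4)) (p q : ℕ) :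
    X.h p q = Y.h p q := by
  have h00 : X.h 0 0 = Y.h 0 0 := by
    unfold HodgeRing.h
    rw [X.connected, Y.connected]
  have h30 : X.h 3 0 = Y.h 3 0 := Pool.Agent.Hodge81.fivefold_odd hphi h10 3 0 (by decide)
  have h40 : X.h 4 0 = Y.h 4 0 := hphi.forms_pred rfl
  have h50 : X.h 5 0 = Y.h 5 0 := hphi.forms_top
  have h20 : X.h 2 0 = Y.h 2 0 := by
    have hx := cX.riemannRoch
    have hy := cY.riemannRoch
    rw [← hchi, ← hx] at hy
    simp only [Finset.sum_range_succ, Finset.sum_range_zero, X.h_conj 0, Y.h_conj 0, h00, h10,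
      h30, h40, h50] at hy
    have h2 : (X.h 2 0 : ℂ) = Y.h 2 0 := by linear_combination -hy
    exact_mod_cast h2
  have hforms : ∀ p, X.h p 0 = Y.h p 0 := by
    intro p
    rcases Nat.lt_or_ge 5 p with h | h
    · unfold HodgeRing.h
      rw [X.bounded p 0 (Or.inl h), Y.bounded p 0 (Or.inl h), finrank_bot, finrank_bot]
    · interval_cases p
      · exact h00
      · exact h10
      · exact h20
      · exact h30
      · exact h40
      · exact h50
  have hoff := hphi.fivefold_off hforms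
  -- the main diagonal
  have c0 := column_sum hphi (a := 0) (b := 0) (m := 5) rfl (Or.inl rfl)
  have s1 := X.h_serre (p := 1) (q := 1) (by norm_num) (by norm_num)
  have s2 := X.h_serre (p := 2) (q := 2) (by norm_num) (by norm_num)
  have s0 := X.h_serre (p := 0) (q := 0) (by norm_num) (by norm_num)
  have t1 := Y.h_serre (p := 1) (q := 1) (by norm_num) (by norm_num)
  have t2 := Y.h_serre (p := 2) (q := 2) (by norm_num) (by norm_num)
  have t0 := Y.h_serre (p := 0) (q := 0) (by norm_num) (by norm_num)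
  simp only [Finset.sum_range_succ, Finset.sum_range_zero] at c0
  norm_num at c0 s0 s1 s2 t0 t1 t2
  have hsum : X.h 1 1 + X.h 2 2 = Y.h 1 1 + Y.h 2 2 := by omega
  have hlw : ∑ p ∈ Finset.range 6, ∑ q ∈ Finset.range 6,
      (-1) ^ (p + q) * (((p : ℂ) - 5 / 2) ^ 2 - 5 / 12) * (X.h p q : ℂ) =
      ∑ p ∈ Finset.range 6, ∑ q ∈ Finset.range 6,
      (-1) ^ (p + q) * (((p : ℂ) - 5 / 2) ^ 2 - 5 / 12) * (Y.h p q : ℂ) := by
    have e1 := cX.libgoberWood
    have e2 := cY.libgoberWood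
    have e3 := cX.gaussBonnet
    have e4 := cY.gaussBonnet
    have key : ∀ h : ℕ → ℕ → ℕ, ∑ p ∈ Finset.range 6, ∑ q ∈ Finset.range 6,
        (-1) ^ (p + q) * (((p : ℂ) - 5 / 2) ^ 2 - 5 / 12) * (h p q : ℂ) =
        (∑ p ∈ Finset.range 6, ∑ q ∈ Finset.range 6,
          (-1) ^ (p + q) * ((p : ℂ) - 5 / 2) ^ 2 * (h p q : ℂ)) -
        5 / 12 * ∑ p ∈ Finset.range 6, ∑ q ∈ Finset.range 6, (-1) ^ (p + q) * (h p q : ℂ) := by
      intro h
      rw [Finset.mul_sum, ← Finset.sum_sub_distrib]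
      refine Finset.sum_congr rfl fun p _ => ?_
      rw [Finset.mul_sum, ← Finset.sum_sub_distrib]
      refine Finset.sum_congr rfl fun q _ => ?_
      ring
    rw [key X.h, key Y.h, e1, e2, e3, e4, h14]
    ring
  have h11 : X.h 1 1 = Y.h 1 1 := by
    have hd : ∑ p ∈ Finset.range 6, ∑ q ∈ Finset.range 6,
        (-1) ^ (p + q) * (((p : ℂ) - 5 / 2) ^ 2 - 5 / 12) * ((X.h p q : ℂ) - Y.h p q) = 0 := by
      simp only [mul_sub, Finset.sum_sub_distrib] at hlw ⊢
      exact sub_eq_zero.2 hlw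
    have hd2 : ∀ p ∈ Finset.range 6, ∑ q ∈ Finset.range 6,
        (-1) ^ (p + q) * (((p : ℂ) - 5 / 2) ^ 2 - 5 / 12) * ((X.h p q : ℂ) - Y.h p q) =
        (((p : ℂ) - 5 / 2) ^ 2 - 5 / 12) * ((X.h p p : ℂ) - Y.h p p) := by
      intro p hp
      rw [Finset.sum_eq_single_of_mem p hp]
      · rw [← two_mul, pow_mul]
        norm_num
      · intro q _ hqp
        rw [hoff p q (Ne.symm hqp), sub_self, mul_zero]
    rw [Finset.sum_congr rfl hd2] at hd
    simp only [Finset.sum_range_succ, Finset.sum_range_zero, s0, s1, s2, t0, t1, t2, h00,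
      sub_self, mul_zero] at hd
    have hsum' : (X.h 2 2 : ℂ) - Y.h 2 2 = -((X.h 1 1 : ℂ) - Y.h 1 1) := by
      have : (X.h 1 1 : ℂ) + X.h 2 2 = Y.h 1 1 + Y.h 2 2 := by exact_mod_cast hsum
      linear_combination this
    rw [hsum'] at hd
    push_cast at hd
    have h2 : (X.h 1 1 : ℂ) = Y.h 1 1 := by linear_combination hd / 4
    exact_mod_cast h2
  by_cases hpq : p = q
  · subst hpq
    rcases Nat.lt_or_ge 5 p with h | h
    · unfold HodgeRing.h
      rw [X.bounded p p (Or.inl h), Y.bounded p p (Or.inl h), finrank_bot, finrank_bot]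
    · interval_cases p <;> omega
  · exact hoff p q hpq

/-- the final form -/
theorem fivefold_main (X : HodgeRing 5 A) (Y : HodgeRing 5 B) (cX : ChernClasses X)
    (cY : ChernClasses Y) (phi : A ≃ₗ[ℂ] B) (hphi : IsMukaiIsometry X Y phi)
    (h10 : X.h 1 0 = Y.h 1 0)
    (hK : X.c1 = 0 ∨ ∀ M : ℕ, ∃ m : ℤ, M < m.natAbs ∧ DivisorsCorrespond cX cY m) (p q : ℕ) :
    X.h p q = Y.h p q := by
  rcases hK with h | h
  · have h' := c1_eq_zero hphi h
    refine fivefold_of_chern cX cY hphi h10 ?_ ?_ p q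
    · rw [chiOmega_zero_of_c1 cX h, chiOmega_zero_of_c1 cY h']
    · rw [cX.c_one, cY.c_one, h, h', zero_mul, zero_mul, map_zero, map_zero]
  · obtain ⟨h1, h2⟩ := chern_numbers h
    exact fivefold_of_chern cX cY hphi h10 h1 h2 p q

end Pool.Agent.Hodge51
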