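import Pool.Agent.Helper81.HodgeF.Semiample

/-!
# Kernels of the powers of a multiple of the first Chern class
-/

set_option autoImplicit false

namespace Pool.Agent.Hodge51

open Pool.Agent.Hodge81

/-- the dimension of the space of all `a` in `H^{p,q}` with `(s c_1)^j a = 0` -/
noncomputable def kerDim {n : ℕ} {A : Type*} [Ring A] [Algebra ℂ A] (X : HodgeRing n A) (s : ℝ)
    (j p q : ℕ) : ℕ :=
  Module.finrank ℂ
    (X.H p q ⊓ LinearMap.ker (LinearMap.mulLeft ℂ (((s : ℂ) • X.c1) ^ j)) : Submodule ℂ A)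

end Pool.Agent.Hodge51
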