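import Pool.Agent.Helper51.DI.KernelDefs
import Pool.Agent.Helper81.HodgeF.Forms

/-!
# A column is determined by the kernels of the powers of the canonical class in low degrees
-/

set_option autoImplicit false

namespace Pool.Agent.Hodge51

open Pool.Agent.Hodge81 Complex Module

section

variable {n : ℕ} {A : Type*} [Ring A] [Algebra ℂ A] [FiniteDimensional ℂ A] (X : HodgeRing n A)

/-- the loss in the quotient -/
theorem h_Q_add_kerDim {s : ℝ} {b : ℕ} (hs : IsSemiample X s b) {j : ℕ} (hj : j ≤ b) (p q : ℕ) :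
    (X.Q hs j hj).h p q + kerDim X s j p q = X.h p q := by
  set G := X.H p q with hG
  set f := (HodgeRing.kerK ((s : ℂ) • X.c1) j).mkQ.domRestrict G with hf
  have h1 := LinearMap.finrank_range_add_finrank_ker f
  have h4 : LinearMap.range f = (X.Q hs j hj).H p q := by
    ext x
    constructor
    · rintro ⟨⟨a, ha⟩, rfl⟩
      exact ⟨a, ha, rfl⟩
    · rintro ⟨a, ha, rfl⟩
      exact ⟨⟨a, ha⟩, rfl⟩
  have h3 : finrank ℂ (LinearMap.ker f) = kerDim X s j p q := by
    have e1 : (LinearMap.ker f).map G.subtype =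
        G ⊓ LinearMap.ker (LinearMap.mulLeft ℂ (((s : ℂ) • X.c1) ^ j)) := by
      ext x
      simp only [Submodule.mem_map, LinearMap.mem_ker, Submodule.subtype_apply,
        Submodule.mem_inf, LinearMap.mulLeft_apply]
      constructor
      · rintro ⟨y, hy, rfl⟩
        exact ⟨y.2, HodgeRing.mkQ_eq_zero.1 hy⟩
      · rintro ⟨hx, hx2⟩
        exact ⟨⟨x, hx⟩, HodgeRing.mkQ_eq_zero.2 hx2, rfl⟩
    rw [kerDim, ← e1]
    exact (Submodule.finrank_map_subtype_eq G _).symm
  rw [h4, h3] at h1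
  exact h1

omit [FiniteDimensional ℂ A] in
theorem kerDim_of_pow_eq_zero {s : ℝ} {j : ℕ} (h : ((s : ℂ) • X.c1) ^ j = 0) (p q : ℕ) :
    kerDim X s j p q = X.h p q := by
  rw [kerDim, h]
  have : LinearMap.ker (LinearMap.mulLeft ℂ (0 : A)) = ⊤ := by
    ext x
    simp
  rw [this, inf_top_eq]
  rfl

omit [FiniteDimensional ℂ A] in
theorem conj_mem_ker {s : ℝ} {j p q : ℕ} {a : A}
    (ha : a ∈ X.H p q ⊓ LinearMap.ker (LinearMap.mulLeft ℂ (((s : ℂ) • X.c1) ^ j))) :
    X.conj a ∈ X.H q p ⊓ LinearMap.ker (LinearMap.mulLeft ℂ (((s : ℂ) • X.c1) ^ j)) := by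
  refine ⟨X.conj_mem _ _ _ ha.1, ?_⟩
  have h0 : ((s : ℂ) • X.c1) ^ j * a = 0 := ha.2
  have h2 := congrArg X.conj h0
  rw [map_mul X.conj, map_pow X.conj, X.sc1_real, map_zero] at h2
  exact h2

theorem kerDim_le (s : ℝ) (j p q : ℕ) : kerDim X s j p q ≤ kerDim X s j q p := by
  have hinj : Function.Injective X.conjR := fun a b hab => by
    rw [← X.conj_conj a, ← X.conj_conj b]
    exact congrArg X.conj hab
  have h1 : ((X.H p q ⊓ LinearMap.ker (LinearMap.mulLeft ℂ
      (((s : ℂ) • X.c1) ^ j))).restrictScalars ℝ).map X.conjR ≤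
      (X.H q p ⊓ LinearMap.ker (LinearMap.mulLeft ℂ
      (((s : ℂ) • X.c1) ^ j))).restrictScalars ℝ := by
    rintro _ ⟨a, ha, rfl⟩
    exact conj_mem_ker X ha
  have : FiniteDimensional ℝ A := FiniteDimensional.complexToReal A
  have h2 := Submodule.finrank_mono h1
  rw [← (Submodule.equivMapOfInjective X.conjR hinj _).finrank_eq, finrank_restrict,
    finrank_restrict] at h2
  unfold kerDim
  omega

theorem kerDim_conj (s : ℝ) (j p q : ℕ) : kerDim X s j p q = kerDim X s j q p :=
  le_antisymm (kerDim_le X s j p q) (kerDim_le X s j q p)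

end

variable {n : ℕ} {A B : Type*} [Ring A] [Algebra ℂ A] [FiniteDimensional ℂ A]
  [Ring B] [Algebra ℂ B] [FiniteDimensional ℂ B]

/-- degree at most `n - 2`, column of index `a ≥ 0` -/
theorem kernel_low {X : HodgeRing n A} {Y : HodgeRing n B} {phi : A ≃ₗ[ℂ] B}
    (hphi : IsMukaiIsometry X Y phi) {s : ℝ} {b : ℕ} (hX : IsSemiample X s b)
    (hY : IsSemiample Y s b) (hX0 : ((s : ℂ) • X.c1) ^ (b + 1) = 0)
    (hY0 : ((s : ℂ) • Y.c1) ^ (b + 1) = 0) {a : ℕ}
    (hker : ∀ r j, a + 2 * r + j + 2 ≤ n → 4 ∣ n - 2 - (a + 2 * r + j) →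
      kerDim X s j (a + r) r = kerDim Y s j (a + r) r)
    (r : ℕ) (hr : a + 2 * r + 2 ≤ n) :
    X.h (a + r) r = Y.h (a + r) r := by
  induction r using Nat.strong_induction_on with
  | _ r ih =>
    obtain ⟨J, hJ⟩ : ∃ J, a + 2 * r + 2 + J = n := ⟨n - (a + 2 * r + 2), by omega⟩
    rcases Nat.lt_or_ge b J with hjb | hjb
    · obtain ⟨m, rfl⟩ := Nat.exists_eq_add_of_lt hjb
      have hx : ((s : ℂ) • X.c1) ^ (b + m + 1) = 0 := by
        rw [show b + m + 1 = (b + 1) + m by ring, pow_add, hX0, zero_mul]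
      have hy : ((s : ℂ) • Y.c1) ^ (b + m + 1) = 0 := by
        rw [show b + m + 1 = (b + 1) + m by ring, pow_add, hY0, zero_mul]
      rw [← kerDim_of_pow_eq_zero X hx, ← kerDim_of_pow_eq_zero Y hy]
      exact hker r _ (by omega) (by
        rw [show n - 2 - (a + 2 * r + (b + m + 1)) = 0 by omega]
        exact dvd_zero 4)
    have h1 := (IsFormIsometry.main_aux (hphi.isFormIsometry hX hY J hjb)
      (p := a + (r + 1)) (q := r + 1) (by omega)).1
    rw [show min (a + (r + 1)) (r + 1) = r + 1 by omega] at h1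
    have h1r : 1 ∈ Finset.range (r + 1 + 1) := by simp
    rw [← Finset.add_sum_erase _ _ h1r, ← Finset.add_sum_erase _ _ h1r] at h1
    have h2 : ∑ k ∈ (Finset.range (r + 1 + 1)).erase 1, (if k % 2 = 1 then
        (X.Q hX J hjb).h (a + (r + 1) - k) (r + 1 - k) else 0) =
        ∑ k ∈ (Finset.range (r + 1 + 1)).erase 1, (if k % 2 = 1 then
        (Y.Q hY J hjb).h (a + (r + 1) - k) (r + 1 - k) else 0) := by
      refine Finset.sum_congr rfl fun k hk => ?_
      simp only [Finset.mem_erase, Finset.mem_range] at hk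
      split_ifs with hodd
      · have e1 := ih (r + 1 - k) (by omega) (by omega)
        have e2 := h_Q_add_kerDim X hX hjb (a + (r + 1 - k)) (r + 1 - k)
        have e3 := h_Q_add_kerDim Y hY hjb (a + (r + 1 - k)) (r + 1 - k)
        have e4 := hker (r + 1 - k) J (by omega) (by omega)
        rw [show a + (r + 1) - k = a + (r + 1 - k) by omega]
        omega
      · rfl
    rw [h2] at h1
    have h3 := Nat.add_right_cancel h1
    rw [if_pos (by norm_num), if_pos (by norm_num), show a + (r + 1) - 1 = a + r by omega,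
      show r + 1 - 1 = r by omega] at h3
    have e2 := h_Q_add_kerDim X hX hjb (a + r) r
    have e3 := h_Q_add_kerDim Y hY hjb (a + r) r
    have e4 := hker r J (by omega) (by
      rw [show n - 2 - (a + 2 * r + J) = 0 by omega]
      exact dvd_zero 4)
    omega

/-- a whole column of index `a ≥ 0` -/
theorem kernel_all {X : HodgeRing n A} {Y : HodgeRing n B} {phi : A ≃ₗ[ℂ] B}
    (hphi : IsMukaiIsometry X Y phi) {s : ℝ} {b : ℕ} (hX : IsSemiample X s b)
    (hY : IsSemiample Y s b) (hX0 : ((s : ℂ) • X.c1) ^ (b + 1) = 0)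
    (hY0 : ((s : ℂ) • Y.c1) ^ (b + 1) = 0) {a : ℕ}
    (hker : ∀ r j, a + 2 * r + j + 2 ≤ n → 4 ∣ n - 2 - (a + 2 * r + j) →
      kerDim X s j (a + r) r = kerDim Y s j (a + r) r)
    (r : ℕ) : X.h (a + r) r = Y.h (a + r) r := by
  have hlow := kernel_low hphi hX hY hX0 hY0 hker
  rcases Nat.lt_or_ge n (a + r) with hbig | hle
  · unfold HodgeRing.h
    rw [X.bounded _ _ (Or.inl hbig), Y.bounded _ _ (Or.inl hbig), finrank_bot, finrank_bot]
  -- symmetry
  have hsx : ∀ r, a + r ≤ n → X.h (a + (n - a - r)) (n - a - r) = X.h (a + r) r := by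
    intro r hr
    rw [← X.h_serre (p := a + r) (q := r) (by omega) (by omega), X.h_conj]
    congr 1 <;> omega
  have hsy : ∀ r, a + r ≤ n → Y.h (a + (n - a - r)) (n - a - r) = Y.h (a + r) r := by
    intro r hr
    rw [← Y.h_serre (p := a + r) (q := r) (by omega) (by omega), Y.h_conj]
    congr 1 <;> omega
  have hsum := column_sum hphi (a := a) (b := 0) (m := n - a) (by omega) (Or.inr rfl)
  simp only [zero_add] at hsum
  -- reduce to the lower half
  wlog hhalf : 2 * r ≤ n - a generalizing r with H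
  · rw [← hsx r hle, ← hsy r hle]
    exact H (n - a - r) (by omega) (by omega)
  rcases Nat.lt_or_ge n (a + 2 * r + 2) with h2 | h2
  swap
  · exact hlow r h2
  -- now `n - a = 2 r` or `n - a = 2 r + 1`
  have key : ∀ j ∈ Finset.range (n - a + 1), j ≠ r → j ≠ n - a - r →
      X.h (a + j) j = Y.h (a + j) j := by
    intro j hj h1 h3
    simp only [Finset.mem_range] at hj
    rcases Nat.lt_or_ge j r with h4 | h4
    · exact hlow j (by omega)
    · rw [← hsx j (by omega), ← hsy j (by omega)]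
      exact hlow (n - a - j) (by omega)
  have hr : r ∈ Finset.range (n - a + 1) := by simp only [Finset.mem_range]; omega
  rw [← Finset.add_sum_erase _ _ hr, ← Finset.add_sum_erase _ _ hr] at hsum
  rcases Nat.lt_or_ge (n - a) (2 * r + 1) with h3 | h3
  · have h4 : ∑ j ∈ (Finset.range (n - a + 1)).erase r, X.h (a + j) j =
        ∑ j ∈ (Finset.range (n - a + 1)).erase r, Y.h (a + j) j := by
      refine Finset.sum_congr rfl fun j hj => ?_
      rw [Finset.mem_erase] at hj
      exact key j hj.2 hj.1 (by omega)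
    rw [h4] at hsum
    exact Nat.add_right_cancel hsum
  · have hr' : n - a - r ∈ (Finset.range (n - a + 1)).erase r := by
      simp only [Finset.mem_erase, Finset.mem_range]
      omega
    rw [← Finset.add_sum_erase _ _ hr', ← Finset.add_sum_erase _ _ hr', hsx r hle, hsy r hle]
      at hsum
    have h4 : ∑ j ∈ ((Finset.range (n - a + 1)).erase r).erase (n - a - r), X.h (a + j) j =
        ∑ j ∈ ((Finset.range (n - a + 1)).erase r).erase (n - a - r), Y.h (a + j) j := by
      refine Finset.sum_congr rfl fun j hj => ?_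
      rw [Finset.mem_erase, Finset.mem_erase] at hj
      exact key j hj.2.2 hj.2.1 hj.1
    rw [h4] at hsum
    omega

/-- the final form -/
theorem kernel_main (X : HodgeRing n A) (Y : HodgeRing n B) (phi : A ≃ₗ[ℂ] B)
    (hphi : IsMukaiIsometry X Y phi) (s : ℝ) (b : ℕ) (hX : IsSemiample X s b)
    (hY : IsSemiample Y s b) (hX0 : ((s : ℂ) • X.c1) ^ (b + 1) = 0)
    (hY0 : ((s : ℂ) • Y.c1) ^ (b + 1) = 0) (i : ℤ)
    (hker : ∀ p q j : ℕ, (p : ℤ) - q = i → p + q + j + 2 ≤ n → 4 ∣ n - 2 - (p + q + j) →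
      kerDim X s j p q = kerDim Y s j p q)
    (p q : ℕ) (hpq : (p : ℤ) - q = i) : X.h p q = Y.h p q := by
  rcases le_total q p with hle | hle
  · obtain ⟨a, rfl⟩ := Nat.exists_eq_add_of_le' hle
    refine kernel_all hphi hX hY hX0 hY0 (fun r j h1 h2 => ?_) q
    refine hker _ _ j ?_ (by omega) ?_
    · push_cast at hpq ⊢
      omega
    · rwa [show a + r + r + j = a + 2 * r + j by ring]
  · obtain ⟨a, rfl⟩ := Nat.exists_eq_add_of_le' hle
    rw [X.h_conj, Y.h_conj]
    refine kernel_all hphi hX hY hX0 hY0 (fun r j h1 h2 => ?_) p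
    rw [kerDim_conj X, kerDim_conj Y]
    refine hker _ _ j ?_ (by omega) ?_
    · push_cast at hpq ⊢
      omega
    · rwa [show r + (a + r) + j = a + 2 * r + j by ring]

end Pool.Agent.Hodge51
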